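import Mathlib

set_option autoImplicit false

namespace Pool.Agent.Results.MP_bfdf54_al.HalvesDim

open Equiv

/-- There is a representation of the action of `G` on `Ω` over `F` in a space of dimension `d`. -/
def HasRep (F : Type) [Field F] (G : Type) [Group G] (Ω : Type) [MulAction G Ω] (d : ℕ) : Prop :=
  ∃ (V : Type) (_ : AddCommGroup V) (_ : Module F V) (_ : Module.Finite F V)
    (ρ : Representation F G V) (φ : Ω → V),
    Function.Injective φ ∧ (∀ (g : G) (ω : Ω), φ (g • ω) = ρ g (φ ω)) ∧ Module.finrank F V = d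

/-- The `F`-linear dimension of an action. -/
noncomputable def lindim (F : Type) [Field F] (G : Type) [Group G] (Ω : Type) [MulAction G Ω] : ℕ :=
  sInf {d | HasRep F G Ω d}

/-- The action of `S_n` on `Ω` is equivalent to the action on the `k`-subsets of `{1, ..., n}`. -/
def IsSubsetAction (n : ℕ) (Ω : Type) [MulAction (Perm (Fin n)) Ω] (k : ℕ) : Prop :=
  ∃ e : Ω ≃ {s : Finset (Fin n) // s.card = k}, ∀ (g : Perm (Fin n)) (ω : Ω),
    (e (g • ω) : Finset (Fin n)) = (e ω : Finset (Fin n)).map g.toEmbedding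

/-- characteristic vector -/
def ind {n : ℕ} (A : Finset (Fin n)) (x : Fin n) : ZMod 2 := if x ∈ A then 1 else 0

/-- the coboundary map -/
def delta (n : ℕ) : (Fin n → ZMod 2) →ₗ[ZMod 2] (Fin n → Fin n → ZMod 2) where
  toFun f x y := f x + f y
  map_add' f g := by ext x y; simp only [Pi.add_apply]; ring
  map_smul' c f := by ext x y; simp only [Pi.smul_apply, smul_eq_mul, RingHom.id_apply]; ring

/-- The set of partitions of `{1, ..., n}` into two halves. -/
def Om (n : ℕ) : Type :=
  {r : Fin n → Fin n → ZMod 2 // ∃ A : Finset (Fin n), 2 * A.card = n ∧ r = delta n (ind A)}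

/-- permuting the coordinates -/
def act {n : ℕ} (g : Perm (Fin n)) (r : Fin n → Fin n → ZMod 2) : Fin n → Fin n → ZMod 2 :=
  fun x y => r (g⁻¹ x) (g⁻¹ y)

theorem act_mul {n : ℕ} (g h : Perm (Fin n)) (r : Fin n → Fin n → ZMod 2) :
    act (g * h) r = act g (act h r) := by
  ext x y; simp [act]

theorem act_one {n : ℕ} (r : Fin n → Fin n → ZMod 2) : act 1 r = r := by
  ext x y; simp [act]

theorem act_ind {n : ℕ} (g : Perm (Fin n)) (A : Finset (Fin n)) :
    act g (delta n (ind A)) = delta n (ind (A.map g.toEmbedding)) := by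
  have h : ∀ x, (x ∈ A.map g.toEmbedding ↔ g⁻¹ x ∈ A) := by
    intro x
    rw [Finset.mem_map_equiv]; rfl
  ext x y
  simp only [act, delta, ind, LinearMap.coe_mk, AddHom.coe_mk, h]

instance (n : ℕ) : MulAction (Perm (Fin n)) (Om n) where
  smul g r := ⟨act g r.1, by
    obtain ⟨A, hA, h⟩ := r.2
    exact ⟨A.map g.toEmbedding, by rw [Finset.card_map, hA], by rw [h, act_ind]⟩⟩
  one_smul r := Subtype.ext (act_one r.1)
  mul_smul g h r := Subtype.ext (act_mul g h r.1)

/-- the partition `{A, Aᶜ}` -/
def om {n : ℕ} (A : Finset (Fin n)) (hA : 2 * A.card = n) : Om n := ⟨delta n (ind A), A, hA, rfl⟩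

theorem exists_om {n : ℕ} (r : Om n) : ∃ (A : Finset (Fin n)) (hA : 2 * A.card = n), r = om A hA := by
  obtain ⟨r, A, hA, rfl⟩ := r
  exact ⟨A, hA, rfl⟩

theorem smul_om {n : ℕ} (g : Perm (Fin n)) (A : Finset (Fin n)) (hA : 2 * A.card = n) :
    g • om A hA = om (A.map g.toEmbedding) (by rw [Finset.card_map, hA]) :=
  Subtype.ext (act_ind g A)

theorem delta_eq_zero_iff {n : ℕ} (A : Finset (Fin n)) (x y : Fin n) :
    delta n (ind A) x y = 0 ↔ (x ∈ A ↔ y ∈ A) := by
  have : delta n (ind A) x y = ind A x + ind A y := rfl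
  rw [this, ind, ind]
  by_cases hx : x ∈ A <;> by_cases hy : y ∈ A <;> simp [hx, hy] <;> decide

theorem om_eq_iff {n : ℕ} (A C : Finset (Fin n)) (hA : 2 * A.card = n) (hC : 2 * C.card = n) :
    om A hA = om C hC ↔ ∀ x y, ((x ∈ A ↔ y ∈ A) ↔ (x ∈ C ↔ y ∈ C)) := by
  constructor
  · intro h x y
    have := congrArg Subtype.val h
    rw [← delta_eq_zero_iff, ← delta_eq_zero_iff]
    change delta n (ind A) = delta n (ind C) at this
    rw [this]
  · intro h
    apply Subtype.ext
    change delta n (ind A) = delta n (ind C)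
    ext x y
    have h1 := h x y
    rw [← delta_eq_zero_iff, ← delta_eq_zero_iff] at h1
    have : ∀ a b : ZMod 2, (a = 0 ↔ b = 0) → a = b := by decide
    exact this _ _ h1

/-- exchange of one element -/
def exch {n : ℕ} (A : Finset (Fin n)) (x y : Fin n) : Finset (Fin n) := insert y (A.erase x)

theorem card_exch {n : ℕ} {A : Finset (Fin n)} {x y : Fin n} (hx : x ∈ A) (hy : y ∉ A) :
    (exch A x y).card = A.card := by
  rw [exch, Finset.card_insert_of_notMem, Finset.card_erase_of_mem hx]
  · have := Finset.card_pos.2 ⟨x, hx⟩; omega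
  · intro h; exact hy (Finset.mem_of_mem_erase h)

theorem exch_induction {n : ℕ} (P : Finset (Fin n) → Prop) (A : Finset (Fin n)) (hA : P A)
    (step : ∀ (C : Finset (Fin n)) (x y : Fin n), C.card = A.card → x ∈ C → y ∉ C → P C → P (exch C x y)) :
    ∀ C : Finset (Fin n), C.card = A.card → P C := by
  have key : ∀ (m : ℕ) (C : Finset (Fin n)), C.card = A.card → (C \ A).card = m → P C := by
    intro m
    induction m with
    | zero =>
      intro C hC h
      have h1 : C ⊆ A := by
        rw [Finset.card_eq_zero] at h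
        exact Finset.sdiff_eq_empty_iff_subset.1 h
      rw [Finset.eq_of_subset_of_card_le h1 hC.ge]
      exact hA
    | succ m ih =>
      intro C hC h
      obtain ⟨y, hy⟩ := Finset.card_pos.1 (by omega : 0 < (C \ A).card)
      have h2 : (A \ C).card = m + 1 := by
        have h3 := Finset.card_sdiff_add_card_inter C A
        have h4 := Finset.card_sdiff_add_card_inter A C
        rw [Finset.inter_comm A C] at h4
        omega
      obtain ⟨x, hx⟩ := Finset.card_pos.1 (by omega : 0 < (A \ C).card)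
      rw [Finset.mem_sdiff] at hx hy
      have h5 : (exch C y x).card = A.card := by rw [card_exch hy.1 hx.2, hC]
      have h6 : exch C y x \ A = (C \ A).erase y := by
        ext z
        simp only [exch, Finset.mem_sdiff, Finset.mem_insert, Finset.mem_erase]
        constructor
        · rintro ⟨rfl | h7, h8⟩
          · exact absurd hx.1 h8
          · exact ⟨h7.1, h7.2, h8⟩
        · rintro ⟨h7, h8, h9⟩
          exact ⟨Or.inr ⟨h7, h8⟩, h9⟩
      have h7 : P (exch C y x) := ih _ h5 (by
        rw [h6, Finset.card_erase_of_mem (Finset.mem_sdiff.2 hy)]; omega)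
      have h8 := step _ x y h5 (by simp [exch]) (by
        simp only [exch, Finset.mem_insert, Finset.mem_erase, not_or]
        refine ⟨fun h => hx.2 (h ▸ hy.1), fun h => h.1 rfl⟩) h7
      have h9 : exch (exch C y x) x y = C := by
        ext z
        simp only [exch, Finset.mem_insert, Finset.mem_erase]
        by_cases hzy : z = y
        · subst hzy; simp [hy.1]
        · by_cases hzx : z = x
          · subst hzx; simp [hx.2, hzy]
          · simp [hzy, hzx]
      rwa [h9] at h8
  intro C hC
  exact key _ C hC rfl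

theorem map_swap {n : ℕ} {A : Finset (Fin n)} {x y : Fin n} (hx : x ∈ A) (hy : y ∉ A) :
    A.map (swap x y).toEmbedding = exch A x y := by
  ext z
  rw [Finset.mem_map_equiv, symm_swap]
  simp only [exch, Finset.mem_insert, Finset.mem_erase]
  by_cases hzy : z = y
  · subst hzy; simp [hx]
  · by_cases hzx : z = x
    · subst hzx; simp [hy, hzy]
    · rw [swap_apply_of_ne_of_ne hzx hzy]; simp [hzx, hzy]

theorem map_swap_of_iff {n : ℕ} {A : Finset (Fin n)} {x y : Fin n} (h : x ∈ A ↔ y ∈ A) :
    A.map (swap x y).toEmbedding = A := by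
  ext z
  rw [Finset.mem_map_equiv, symm_swap]
  by_cases hzy : z = y
  · subst hzy; simp [h]
  · by_cases hzx : z = x
    · subst hzx; simp [h]
    · rw [swap_apply_of_ne_of_ne hzx hzy]

theorem exists_perm {n : ℕ} (A C : Finset (Fin n)) (h : C.card = A.card) :
    ∃ g : Perm (Fin n), A.map g.toEmbedding = C := by
  revert h
  refine exch_induction (fun C => ∃ g : Perm (Fin n), A.map g.toEmbedding = C) A ⟨1, by
    ext z; rw [Finset.mem_map_equiv]; rfl⟩ ?_ C
  rintro C x y - hx hy ⟨g, rfl⟩
  refine ⟨swap x y * g, ?_⟩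
  rw [← map_swap hx hy, Finset.map_map]
  rfl

theorem block_smul_eq {n : ℕ} {B : Set (Om n)} (hB : MulAction.IsBlock (Perm (Fin n)) B)
    (g : Perm (Fin n)) {a : Om n} (ha : a ∈ B) (hga : g • a ∈ B) {b : Om n} (hb : b ∈ B) : g • b ∈ B := by
  have h1 := (MulAction.isBlock_iff_smul_eq_of_mem.1 hB ha hga)
  rw [← h1]
  exact Set.smul_mem_smul_set hb

theorem nbr {n : ℕ} {B : Set (Om n)} (hB : MulAction.IsBlock (Perm (Fin n)) B)
    {A : Finset (Fin n)} (hA : 2 * A.card = n) (h0 : om A hA ∈ B) {x y : Fin n} (hx : x ∈ A) (hy : y ∉ A)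
    (h1 : om (exch A x y) (by rw [card_exch hx hy, hA]) ∈ B) {x' y' : Fin n} (hx' : x' ∈ A) (hy' : y' ∉ A) :
    om (exch A x' y') (by rw [card_exch hx' hy', hA]) ∈ B := by
  have e1 : A.map (swap x x').toEmbedding = A := map_swap_of_iff (iff_of_true hx hx')
  have e2 : A.map (swap y y').toEmbedding = A := map_swap_of_iff (iff_of_false hy hy')
  have e3 : A.map (swap x x' * swap y y').toEmbedding = A := by
    have : A.map (swap x x' * swap y y').toEmbedding = (A.map (swap y y').toEmbedding).map (swap x x').toEmbedding := by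
      rw [Finset.map_map]; rfl
    rw [this, e2, e1]
  have e4 : (swap x x' * swap y y') • om A hA ∈ B := by
    rw [smul_om]
    convert h0
  have e5 := block_smul_eq hB _ h0 e4 h1
  rw [smul_om] at e5
  convert e5 using 2
  ext z
  rw [Finset.mem_map_equiv]
  simp only [exch, Finset.mem_insert, Finset.mem_erase]
  have hxy : x ≠ y := fun h => hy (h ▸ hx)
  have hxy' : x ≠ y' := fun h => hy' (h ▸ hx)
  have hx'y : x' ≠ y := fun h => hy (h ▸ hx')
  have hx'y' : x' ≠ y' := fun h => hy' (h ▸ hx')
  have f1 : (swap x x' * swap y y').symm z = y ↔ z = y' := by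
    rw [Equiv.symm_apply_eq, Perm.mul_apply, swap_apply_left, swap_apply_of_ne_of_ne hxy'.symm hx'y'.symm]
  have f2 : (swap x x' * swap y y').symm z = x ↔ z = x' := by
    rw [Equiv.symm_apply_eq, Perm.mul_apply, swap_apply_of_ne_of_ne hxy hxy', swap_apply_left]
  have f3 : (swap x x' * swap y y').symm z ∈ A ↔ z ∈ A := by
    have := congrArg (fun S => z ∈ S) e3
    simp only [Finset.mem_map_equiv] at this
    exact this.to_iff
  simp only [ne_eq, f1, f2, f3]

theorem isPreprimitive {n : ℕ} : MulAction.IsPreprimitive (Perm (Fin n)) (Om n) := by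
  have ht : MulAction.IsPretransitive (Perm (Fin n)) (Om n) := by
    refine ⟨fun a b => ?_⟩
    obtain ⟨A, hA, rfl⟩ := exists_om a
    obtain ⟨C, hC, rfl⟩ := exists_om b
    obtain ⟨g, hg⟩ := exists_perm A C (by omega)
    refine ⟨g, ?_⟩
    rw [smul_om]
    congr 1
  refine { toIsPretransitive := ht, isTrivialBlock_of_isBlock := fun {B} hB => ?_ }
  by_cases hs : B.Subsingleton
  · exact Or.inl hs
  refine Or.inr (Set.eq_univ_of_forall fun c => ?_)
  rw [Set.not_subsingleton_iff] at hs
  obtain ⟨a, ha, b, hb, hab⟩ := hs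
  obtain ⟨A, hA, rfl⟩ := exists_om a
  obtain ⟨C, hC, rfl⟩ := exists_om b
  -- elements of `C` both in `A` and outside `A`, or the complement
  have h1 : ∃ x y, (x ∈ A ↔ y ∈ A) ∧ x ∈ C ∧ y ∉ C := by
    by_contra hcon
    apply hab
    rw [om_eq_iff]
    have h2 : ∀ x y, (x ∈ A ↔ y ∈ A) → (x ∈ C ↔ y ∈ C) := by
      intro x y hxy
      by_contra h3
      rcases (by tauto : (x ∈ C ∧ y ∉ C) ∨ (y ∈ C ∧ x ∉ C)) with h4 | h4
      · exact hcon ⟨x, y, hxy, h4⟩
      · exact hcon ⟨y, x, hxy.symm, h4⟩
    intro x y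
    refine ⟨h2 x y, fun h3 => ?_⟩
    by_contra h4
    -- then `C` is everything or nothing
    have h5 : ∀ z, (z ∈ C ↔ x ∈ C) := by
      intro z
      by_cases hz : (z ∈ A ↔ x ∈ A)
      · exact h2 z x hz
      · exact (h2 z y (by tauto)).trans h3.symm
    have hpos : 0 < n := Fin.pos x
    by_cases hxC : x ∈ C
    · have : C = Finset.univ := by ext z; simp [h5, hxC]
      rw [this, Finset.card_univ, Fintype.card_fin] at hC
      omega
    · have : C = ∅ := by ext z; simp [h5, hxC]
      rw [this, Finset.card_empty] at hC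
      omega
  obtain ⟨x, y, hxy, hx, hy⟩ := h1
  have h2 : om (exch C x y) (by rw [card_exch hx hy, hC]) ∈ B := by
    have e1 : (swap x y) • om A hA ∈ B := by
      rw [smul_om]
      have := map_swap_of_iff hxy
      convert ha
    have e2 := block_smul_eq hB _ ha e1 hb
    rw [smul_om] at e2
    convert e2 using 2
    exact (map_swap hx hy).symm
  obtain ⟨D, hD, rfl⟩ := exists_om c
  have key := exch_induction (fun D => ∀ hD : 2 * D.card = n, om D hD ∈ B ∧ ∀ (x' y' : Fin n) (hx' : x' ∈ D) (hy' : y' ∉ D),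
      om (exch D x' y') (by rw [card_exch hx' hy', hD]) ∈ B) C
    (fun hC => ⟨hb, fun x' y' hx' hy' => nbr hB hC hb hx hy h2 hx' hy'⟩) (by
      intro D u v hDC hu hv ih hD'
      have hD : 2 * D.card = n := by omega
      obtain ⟨i1, i2⟩ := ih hD
      have i3 := i2 u v hu hv
      refine ⟨i3, fun x' y' hx' hy' => ?_⟩
      have hv' : v ∈ exch D u v := by simp [exch]
      have huv : u ≠ v := fun h => hv (h ▸ hu)
      have hu' : u ∉ exch D u v := by simp [exch, huv]
      have back : exch (exch D u v) v u = D := by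
        ext z
        simp only [exch, Finset.mem_insert, Finset.mem_erase]
        by_cases hzv : z = v
        · subst hzv; simp [hv, huv.symm]
        · by_cases hzu : z = u
          · subst hzu; simp [hu]
          · simp [hzv, hzu]
      refine nbr hB hD' i3 hv' hu' ?_ hx' hy'
      convert i1)
  exact (key D (by omega) hD).1

theorem faithful {n : ℕ} (hn : 6 ≤ n) (he : Even n) : FaithfulSMul (Perm (Fin n)) (Om n) := by
  obtain ⟨m, hm⟩ := he
  have hn2 : n = 2 * m := by omega
  have key : ∀ g : Perm (Fin n), (∀ a : Om n, g • a = a) → g = 1 := by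
    intro g hg
    by_contra hne
    have : ∃ x, g x ≠ x := by
      by_contra h
      exact hne (Equiv.ext fun x => by_contra fun h' => h ⟨x, h'⟩)
    obtain ⟨x, hx⟩ := this
    have hz : ∃ z : Fin n, z ∉ ({x, g x} : Finset (Fin n)) := by
      by_contra h
      have h1 : (Finset.univ : Finset (Fin n)) ⊆ {x, g x} := fun z _ => by_contra fun h' => h ⟨z, h'⟩
      have h2 := Finset.card_le_card h1
      have h3 := Finset.card_le_two (a := x) (b := g x)
      rw [Finset.card_univ, Fintype.card_fin] at h2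
      omega
    obtain ⟨z, hz⟩ := hz
    simp only [Finset.mem_insert, Finset.mem_singleton, not_or] at hz
    have h1 : ({x, z, g z} : Finset (Fin n)) ⊆ Finset.univ.erase (g x) := by
      intro w hw
      simp only [Finset.mem_insert, Finset.mem_singleton] at hw
      refine Finset.mem_erase.2 ⟨?_, Finset.mem_univ _⟩
      rcases hw with rfl | rfl | rfl
      · exact fun h => hx h.symm
      · exact hz.2
      · exact fun h => hz.1 (g.injective h)
    obtain ⟨A, hA1, hA2, hA3⟩ := Finset.exists_subsuperset_card_eq h1 (n := m)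
      (le_trans Finset.card_le_three (by omega)) (by
        rw [Finset.card_erase_of_mem (Finset.mem_univ _), Finset.card_univ, Fintype.card_fin]; omega)
    have h2 := hg (om A (by omega))
    rw [smul_om, om_eq_iff] at h2
    have h3 := h2 (g x) (g z)
    have h4 : ∀ w, g w ∈ A.map g.toEmbedding ↔ w ∈ A := by
      intro w
      rw [Finset.mem_map_equiv, Equiv.symm_apply_apply]
    rw [h4, h4] at h3
    have a1 : x ∈ A := hA1 (by simp)
    have a2 : z ∈ A := hA1 (by simp)
    have a3 : g z ∈ A := hA1 (by simp)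
    have a4 : g x ∉ A := fun h => (Finset.mem_erase.1 (hA2 h)).1 rfl
    tauto
  refine ⟨fun {g h} hgh => ?_⟩
  have := key (h⁻¹ * g) (fun a => by rw [mul_smul, hgh a, inv_smul_smul])
  exact (inv_mul_eq_one.1 this).symm

theorem swap_fix {n : ℕ} (hn : 6 ≤ n) {A : Finset (Fin n)} (hA : 2 * A.card = n) {x y : Fin n}
    (h : swap x y • om A hA = om A hA) : (x ∈ A ↔ y ∈ A) := by
  have key : ∀ x y : Fin n, swap x y • om A hA = om A hA → x ∈ A → y ∈ A := by
    intro x y h hx
    by_contra hy
    rw [smul_om, om_eq_iff] at h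
    have h1 : 0 < (A.erase x).card := by rw [Finset.card_erase_of_mem hx]; omega
    obtain ⟨z, hz⟩ := Finset.card_pos.1 h1
    rw [Finset.mem_erase] at hz
    have h2 := h x z
    rw [map_swap hx hy] at h2
    have hzy : z ≠ y := fun h => hy (h ▸ hz.2)
    have hxy : x ≠ y := fun h => hy (h ▸ hx)
    simp only [exch, Finset.mem_insert, Finset.mem_erase] at h2
    simp [hxy, hz.1, hz.2, hzy, hx] at h2
  exact ⟨key x y h, key y x (by rwa [swap_comm])⟩

theorem not_subset {n : ℕ} (hn : 6 ≤ n) (k : ℕ) (he0 : Even n) : ¬ IsSubsetAction n (Om n) k := by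
  rintro ⟨e, he⟩
  have key : ∀ (A : Finset (Fin n)) (hA : 2 * A.card = n),
      ∀ x y, ((x ∈ A ↔ y ∈ A) ↔ (x ∈ (e (om A hA)).1 ↔ y ∈ (e (om A hA)).1)) := by
    intro A hA x y
    have h1 := he (swap x y) (om A hA)
    constructor
    · intro h
      have h2 : swap x y • om A hA = om A hA := by
        rw [smul_om]
        have := map_swap_of_iff h
        congr 1
      rw [h2] at h1
      have h3 : x ∈ (e (om A hA)).1 ↔ x ∈ (e (om A hA)).1.map (swap x y).toEmbedding := by rw [← h1]
      rw [Finset.mem_map_equiv, symm_swap, swap_apply_left] at h3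
      exact h3
    · intro h
      rw [map_swap_of_iff h] at h1
      exact swap_fix hn hA (e.injective (Subtype.ext h1))
  obtain ⟨m, hm⟩ := he0
  obtain ⟨A, -, hA⟩ := Finset.exists_subset_card_eq (s := (Finset.univ : Finset (Fin n))) (n := m)
    (by rw [Finset.card_univ, Fintype.card_fin]; omega)
  have hA2 : 2 * A.card = n := by omega
  obtain ⟨a, ha⟩ := Finset.card_pos.1 (by omega : 0 < A.card)
  set s := (e (om A hA2)).1 with hs
  have hk : s.card = k := (e (om A hA2)).2
  have hcase : s = A ∨ s = Aᶜ := by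
    by_cases h : a ∈ s
    · left
      ext y
      have := key A hA2 a y
      rw [← hs] at this
      tauto
    · right
      ext y
      have := key A hA2 a y
      rw [← hs] at this
      rw [Finset.mem_compl]
      tauto
  have hcardA : (Aᶜ).card = A.card := by rw [Finset.card_compl, Fintype.card_fin]; omega
  have hsc : s.card = A.card := by
    rcases hcase with h | h
    · rw [h]
    · rw [h, hcardA]
  have hsc2 : (sᶜ).card = k := by rw [Finset.card_compl, Fintype.card_fin]; omega
  obtain ⟨A', hA', h'⟩ := exists_om (e.symm ⟨sᶜ, hsc2⟩)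
  have h1 : (e (om A' hA')).1 = sᶜ := by rw [← h', Equiv.apply_symm_apply]
  have h2 : om A' hA' = om A hA2 := by
    rw [om_eq_iff]
    intro x y
    rw [key A' hA', key A hA2, h1, ← hs, Finset.mem_compl, Finset.mem_compl]
    tauto
  rw [h2, ← hs] at h1
  have h3 : a ∈ s ↔ a ∈ sᶜ := by rw [← h1]
  rw [Finset.mem_compl] at h3
  tauto

/-- the representation -/
def rep (n : ℕ) : Representation (ZMod 2) (Perm (Fin n)) (LinearMap.range (delta n)) where
  toFun g :=
    { toFun := fun v => ⟨act g v.1, by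
        obtain ⟨f, hf⟩ := v.2
        exact ⟨fun x => f (g⁻¹ x), by rw [← hf]; rfl⟩⟩
      map_add' := fun u v => rfl
      map_smul' := fun c v => rfl }
  map_one' := LinearMap.ext fun v => Subtype.ext (act_one v.1)
  map_mul' g h := LinearMap.ext fun v => Subtype.ext (act_mul g h v.1)

theorem finrank_le {n : ℕ} (hn : 6 ≤ n) : Module.finrank (ZMod 2) (LinearMap.range (delta n)) ≤ n - 1 := by
  have h1 := LinearMap.finrank_range_add_finrank_ker (delta n)
  rw [Module.finrank_fin_fun] at h1
  have h2 : LinearMap.ker (delta n) ≠ ⊥ := by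
    intro h
    have h3 : (fun _ => 1 : Fin n → ZMod 2) ∈ LinearMap.ker (delta n) := by
      rw [LinearMap.mem_ker]
      ext x y
      change (1 : ZMod 2) + 1 = 0
      decide
    rw [h, Submodule.mem_bot] at h3
    have h4 := congrFun h3 ⟨0, by omega⟩
    simp at h4
  have h3 : 0 < Module.finrank (ZMod 2) (LinearMap.ker (delta n)) := by
    rw [Module.finrank_pos_iff]
    exact Submodule.nontrivial_iff_ne_bot.2 h2
  omega

theorem hasRep (n : ℕ) : HasRep (ZMod 2) (Perm (Fin n)) (Om n) (Module.finrank (ZMod 2) (LinearMap.range (delta n))) :=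
  ⟨LinearMap.range (delta n), inferInstance, inferInstance, inferInstance, rep n,
    fun r => ⟨r.1, by obtain ⟨A, -, h⟩ := r.2; exact ⟨ind A, h.symm⟩⟩,
    fun a b h => Subtype.ext (congrArg (fun v : LinearMap.range (delta n) => v.1) h), fun g ω => rfl, rfl⟩

/-- For every even `n ≥ 6` there is a faithful primitive action of `S_n`, not equivalent to any action on
`k`-subsets, whose linear dimension over `F_2` is at most `n - 1 < (n ^ 2 - 3 n) / 2`. -/
theorem result : ∀ n : ℕ, 6 ≤ n → Even n →
    ∃ (Ω : Type) (_ : Finite Ω) (_ : MulAction (Perm (Fin n)) Ω),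
      FaithfulSMul (Perm (Fin n)) Ω ∧ MulAction.IsPreprimitive (Perm (Fin n)) Ω ∧
      (∀ k, ¬ IsSubsetAction n Ω k) ∧
      IsLeast {d | HasRep (ZMod 2) (Perm (Fin n)) Ω d} (lindim (ZMod 2) (Perm (Fin n)) Ω) ∧
      lindim (ZMod 2) (Perm (Fin n)) Ω ≤ n - 1 ∧
      (lindim (ZMod 2) (Perm (Fin n)) Ω : ℚ) < ((n : ℚ) ^ 2 - 3 * n) / 2 := by
  intro n hn he
  have h1 : lindim (ZMod 2) (Perm (Fin n)) (Om n) ≤ n - 1 := (Nat.sInf_le (hasRep n)).trans (finrank_le hn)
  have hfin : Finite (Om n) := by unfold Om; infer_instance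
  refine ⟨Om n, hfin, inferInstance, faithful hn he, isPreprimitive, fun k => not_subset hn k he,
    ⟨Nat.sInf_mem ⟨_, hasRep n⟩, fun d hd => Nat.sInf_le hd⟩, h1, ?_⟩
  have h2 : (lindim (ZMod 2) (Perm (Fin n)) (Om n) : ℚ) ≤ n - 1 := by
    have : lindim (ZMod 2) (Perm (Fin n)) (Om n) + 1 ≤ n := by omega
    have h3 : ((lindim (ZMod 2) (Perm (Fin n)) (Om n) + 1 : ℕ) : ℚ) ≤ n := by exact_mod_cast this
    push_cast at h3
    linarith
  have h3 : (6 : ℚ) ≤ n := by exact_mod_cast hn
  nlinarith

end Pool.Agent.Results.MP_bfdf54_al.HalvesDim
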